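import Pool.Agent.Lib.MP_a61a4c_gt.RkK

/-!
The multiplicities of the principal curvatures of the fibres of a Riemannian submersion `f : M → B`
with positive sectional curvature of `M`. Let `b = dim B` and let `S_x` be the shape operator of
the fibre in the horizontal direction `x`.

* If `M` is compact and every `S_x` has an eigenvalue `lam x` of multiplicity at least `m`, then
  `m < b` if `lam` is continuous or if `2 m` is greater than the dimension of the fibres.
* If (`M` any manifold) the kernel of every `S_x` has dimension at least `m`, then `m < b`.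
* The second statement is local; more generally there is near `x` a horizontal unit vector `y` such
  that the kernel of `S_y - ⟨η, y⟩ id` has dimension less than `b`, if `⟨∇_x η, x⟩ ≤ ⟨η, x⟩²`.
-/

set_option autoImplicit false

open Bundle Filter Topology
open scoped Manifold ContDiff Bundle

namespace Pool.Agent.Results.MP_a61a4c_gt.Multiplicity

open Pool.Agent.PW

theorem result {E : Type*} [NormedAddCommGroup E] [NormedSpace ℝ E] [FiniteDimensional ℝ E]
    {E' : Type*} [NormedAddCommGroup E'] [NormedSpace ℝ E'] [FiniteDimensional ℝ E']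
    {M : Type*} [TopologicalSpace M] [ChartedSpace E M] [IsManifold 𝓘(ℝ, E) ∞ M] [Nonempty M]
    {B : Type*} [TopologicalSpace B] [ChartedSpace E' B] [IsManifold 𝓘(ℝ, E') ∞ B]
    [RiemannianBundle (fun x : M => TangentSpace 𝓘(ℝ, E) x)]
    [IsContMDiffRiemannianBundle 𝓘(ℝ, E) ∞ E (fun x : M => TangentSpace 𝓘(ℝ, E) x)]
    [RiemannianBundle (fun x : B => TangentSpace 𝓘(ℝ, E') x)]
    [IsContMDiffRiemannianBundle 𝓘(ℝ, E') ∞ E' (fun x : B => TangentSpace 𝓘(ℝ, E') x)]
    (hb : 0 < Module.finrank ℝ E')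
    (f : M → B) (hf : IsRiemSub (E := E) (E' := E') f)
    (cov : CovariantDerivative 𝓘(ℝ, E) E (TangentSpace 𝓘(ℝ, E) : M → Type _))
    (hcov : IsLeviCivita cov) (hpos : SecPos cov) :
    -- compact `M`: an eigenvalue of multiplicity at least `m`
    (CompactSpace M → ∀ (lam : TangentBundle 𝓘(ℝ, E) M → ℝ) (m : ℕ),
      MultGe (E := E) (E' := E') cov f lam m →
      (Module.finrank ℝ E - Module.finrank ℝ E' < 2 * m ∨
        ContinuousOn lam (HUnit (E := E) (E' := E') f)) →
      m < Module.finrank ℝ E') ∧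
    -- any `M`: the eigenvalue `0`
    (∀ m : ℕ, MultGe (E := E) (E' := E') cov f (fun _ => 0) m → m < Module.finrank ℝ E') ∧
    -- the local statement
    ∀ η : Π x : M, TangentSpace 𝓘(ℝ, E) x, (∀ p, SmoothNear η p) →
      ∀ (p : M) (Z : Π x : M, TangentSpace 𝓘(ℝ, E) x), SmoothNear Z p →
        Horiz (E' := E') f p (Z p) → ‖Z p‖ = 1 →
        (inner ℝ (cov η p (Z p)) (Z p) : ℝ) ≤ (inner ℝ (η p) (Z p)) ^ 2 →
        ∀ N ∈ 𝓝 p, ∀ ε > (0 : ℝ),
          ∃ q ∈ N, ∃ y : TangentSpace 𝓘(ℝ, E) q, Horiz (E' := E') f q y ∧ ‖y‖ = 1 ∧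
            ‖y - Z q‖ < ε ∧ Generic (E := E) (E' := E') cov f q y (inner ℝ (η q) y) :=
  ⟨fun _ _ _ hm h => h.elim (fun hk => mult_half hf hcov hb hpos hm hk)
      (fun hc => mult_cont hf hcov hb hpos hc hm),
    fun _ hm => mult_zero hf hcov hb hpos hm,
    fun _ hη _ _ hZ hx hx1 h0 _ hN _ hε => generic_near hf hcov hpos hη hZ hx hx1 h0 hN hε⟩

end Pool.Agent.Results.MP_a61a4c_gt.Multiplicity
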