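import Pool.Agent.Lib.MP_a61a4c_gt.Rg2

/-!
Riemannian submersions `f : M → B` of a compact manifold with sectional curvature at least `δ`: if the
Ricci curvature of the base is at most `ρ`, then `δ ((b - 1) + 3 k) ≤ ρ`, where `b = dim B` and
`k = dim M - dim B` is the dimension of the fibres. The mean curvature of the fibres is bounded by the
difference, in the case of equality the fibres are totally geodesic, and `ρ ≤ (4 b - 1) δ`, `δ > 0`
implies `k < b`.
-/

set_option autoImplicit false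

open scoped Manifold ContDiff Bundle

namespace Pool.Agent.Results.MP_a61a4c_gt.RicciBound

open Bundle Pool.Agent.PW

theorem result {E : Type*} [NormedAddCommGroup E] [NormedSpace ℝ E] [FiniteDimensional ℝ E]
    {E' : Type*} [NormedAddCommGroup E'] [NormedSpace ℝ E'] [FiniteDimensional ℝ E']
    {M : Type*} [TopologicalSpace M] [ChartedSpace E M] [IsManifold 𝓘(ℝ, E) ∞ M]
    [CompactSpace M] [Nonempty M]
    {B : Type*} [TopologicalSpace B] [ChartedSpace E' B] [IsManifold 𝓘(ℝ, E') ∞ B]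
    [RiemannianBundle (fun x : M => TangentSpace 𝓘(ℝ, E) x)]
    [IsContMDiffRiemannianBundle 𝓘(ℝ, E) ∞ E (fun x : M => TangentSpace 𝓘(ℝ, E) x)]
    [RiemannianBundle (fun x : B => TangentSpace 𝓘(ℝ, E') x)]
    [IsContMDiffRiemannianBundle 𝓘(ℝ, E') ∞ E' (fun x : B => TangentSpace 𝓘(ℝ, E') x)]
    (hb : 0 < Module.finrank ℝ E')
    (f : M → B) (hf : IsRiemSub (E := E) (E' := E') f)
    (cov : CovariantDerivative 𝓘(ℝ, E) E (TangentSpace 𝓘(ℝ, E) : M → Type _))
    (hcov : IsLeviCivita cov)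
    (cov' : CovariantDerivative 𝓘(ℝ, E') E' (TangentSpace 𝓘(ℝ, E') : B → Type _))
    (hcov' : IsLeviCivita cov')
    (δ ρ : ℝ) (hδ : SecGe cov δ) (hρ : RicLe cov' ρ) :
    -- the bound
    δ * (((Module.finrank ℝ E' : ℝ) - 1) + 3 * ((Module.finrank ℝ E : ℝ) - Module.finrank ℝ E')) ≤
      ρ ∧
    -- the mean curvature
    (∀ (q : M) (n : TangentSpace 𝓘(ℝ, E) q), IsMeanVec (E := E) (E' := E') cov f q n →
      ((Module.finrank ℝ E : ℝ) - Module.finrank ℝ E') * (δ * (((Module.finrank ℝ E' : ℝ) - 1) +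
        3 * ((Module.finrank ℝ E : ℝ) - Module.finrank ℝ E'))) + 3 * ‖n‖ ^ 2 ≤
        ((Module.finrank ℝ E : ℝ) - Module.finrank ℝ E') * ρ) ∧
    -- the case of equality
    (ρ = δ * (((Module.finrank ℝ E' : ℝ) - 1) +
      3 * ((Module.finrank ℝ E : ℝ) - Module.finrank ℝ E')) → TotGeo (E := E) (E' := E') cov f) ∧
    -- the dimension of the fibres
    (0 < δ → ρ ≤ (4 * (Module.finrank ℝ E' : ℝ) - 1) * δ →
      Module.finrank ℝ E - Module.finrank ℝ E' < Module.finrank ℝ E') := by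
  refine ⟨ricci_bound hf hcov hcov' hb hδ hρ, fun q n hn => ?_,
    fun h => totGeo_of_eq hf hcov hcov' hb hδ hρ h.le,
    fun hδ0 h => ricci_lt hf hcov hcov' hb hδ0 hδ hρ h⟩
  obtain ⟨N, hN⟩ := exists_mean (E := E) (E' := E') hf hcov
  rw [meanVec_norm hf hN hn]
  exact mean_bound hf hcov hcov' hb hδ hρ hN q

end Pool.Agent.Results.MP_a61a4c_gt.RicciBound
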